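import Pool.Agent.Helper7.MainC
import Pool.Agent.Helper7.U.MainU
import Pool.Agent.Helper71.AF.Cases
import Pool.Agent.Helper71.AF.Ranks
import Pool.Agent.Helper7.AF.Small
import Pool.Agent.Helper83.Ball.Final
import Pool.Agent.Helper8.TPrime

/-!
Simple abelian varieties of odd prime dimension: the three types of endomorphism algebras.
-/

namespace Pool.Agent.Helper7

open Module NumberField Pool.Agent.GPC Matrix

/-- the dimension of the eigenspaces of a totally real field is even -/
lemma rf_even {κ : Type} [Fintype κ] [DecidableEq κ] {ϖ : ℂ} {P : PData κ ϖ} {K : Type} [Field K]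
    [NumberField K] (F : RF P K) : Even F.r := by
  classical
  have σ : K →+* ℂ := Classical.choice (inferInstance : Nonempty (K →+* ℂ))
  let M : Matrix (Fin F.r) (Fin F.r) ℂ := Matrix.of fun i j => P.ψ (F.e σ i) (F.e σ j)
  have halt : Mᵀ = -M := by
    ext i j
    have h1 := P.hψalt (F.e σ j) (F.e σ i)
    show P.ψ (F.e σ j) (F.e σ i) = - P.ψ (F.e σ i) (F.e σ j)
    linear_combination h1
  by_contra hodd
  rw [Nat.not_even_iff_odd] at hodd
  have hdet : M.det = 0 := by
    have h1 := congrArg Matrix.det halt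
    rw [Matrix.det_transpose, Matrix.det_neg, Fintype.card_fin, hodd.neg_one_pow] at h1
    linear_combination h1 / 2
  obtain ⟨v, hv0, hv⟩ := Matrix.exists_mulVec_eq_zero_iff.mpr hdet
  have horth : ∀ τ, τ ≠ σ → ∀ i j, P.ψ (F.e τ i) (F.e σ j) = 0 := by
    intro τ hτ i j
    by_contra hne
    apply hτ
    ext x
    have h1 := F.hros x (F.e τ i) (F.e σ j)
    rw [F.rho_e, F.rho_e, map_smul, map_smul, LinearMap.smul_apply, smul_eq_mul,
      smul_eq_mul] at h1
    exact mul_right_cancel₀ hne h1
  have h0 : ∑ j, v j • F.e σ j = 0 := by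
    apply Pool.Agent.Helper71.AF.ndr P
    intro u
    rw [F.hsum u, map_sum P.ψ, LinearMap.sum_apply]
    refine Finset.sum_eq_zero fun τ _ => ?_
    rw [map_sum P.ψ, LinearMap.sum_apply]
    refine Finset.sum_eq_zero fun i _ => ?_
    rw [map_smul P.ψ, LinearMap.smul_apply, map_sum]
    by_cases hτ : τ = σ
    · subst hτ
      have h2 := congrFun hv i
      rw [Matrix.mulVec, dotProduct] at h2
      simp only [map_smul, smul_eq_mul]
      have h3 : ∑ j, v j * P.ψ (F.e τ i) (F.e τ j) = 0 := by
        refine Eq.trans ?_ h2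
        exact Finset.sum_congr rfl fun j _ => mul_comm _ _
      rw [h3, mul_zero]
    · simp only [map_smul, horth τ hτ, smul_zero, Finset.sum_const_zero]
  apply hv0
  funext j
  have h1 := congrArg (F.co σ j) h0
  rw [map_sum, map_zero, Finset.sum_eq_single j] at h1
  · rw [map_smul, F.co_e, if_pos ⟨rfl, rfl⟩, smul_eq_mul, mul_one] at h1
    exact h1
  · intro b _ hb
    rw [map_smul, F.co_e, if_neg (fun h => hb h.2.symm), smul_zero]
  · intro h; exact absurd (Finset.mem_univ _) h

/-- the three types of simple abelian varieties of odd prime dimension with more endomorphisms than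
the integers -/
theorem prime_cases (A : AbVar) (hs : A.IsSimple) (hp : A.g.Prime) (hp2 : A.g ≠ 2)
    (hE : ∃ f, A.IsEnd f ∧ ∀ q : ℚ, ∃ v, f v ≠ (q : ℂ) • v) :
    ∃ (K : Type) (_ : Field K) (_ : NumberField K), IsRMType A K ∨ IsCMType A K ∨
      ∃ (_ : IsCMField K) (ρ : K → A.H1 → A.H1), A.IsHermMult K ρ ∧ finrank ℚ K = 2 := by
  have hodd : Odd A.g := hp.odd_of_ne_two hp2
  obtain ⟨K, iF, iN, hK⟩ := simple_cases A hs
  refine ⟨K, iF, iN, ?_⟩
  rcases hK with ⟨hre, ⟨C⟩⟩ | ⟨h1, ρ, C⟩ | ⟨h1, ρ, j, b, C⟩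
  · -- real type
    obtain ⟨F, hF⟩ := nonempty_RF A K C
    obtain ⟨s, hs2⟩ := rf_even F
    have hF' : finrank ℚ K * s = A.g := by
      have : 2 * (finrank ℚ K * s) = 2 * A.g := by
        rw [← hF, hs2]
        ring
      omega
    have hdvd : finrank ℚ K ∣ A.g := ⟨s, hF'.symm⟩
    rcases (Nat.dvd_prime hp).mp hdvd with h | h
    · exfalso
      obtain ⟨f, hf, hne⟩ := hE
      have hall : ∀ x : K, ∃ a : ℚ, x = a := by
        intro x
        obtain ⟨a, ha⟩ := (finrank_eq_one_iff_of_nonzero' (1 : K) one_ne_zero).mp h x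
        refine ⟨a, ?_⟩
        rw [← ha, Algebra.smul_def, mul_one]; rfl
      have hrat : ∀ (a : ℚ) (v : A.H1), C.ρ (a : K) v = (a : ℂ) • v := by
        intro a v
        have h1 := rho_ratsmul (reRho C) a 1
        rw [Algebra.smul_def, mul_one, map_one] at h1
        have h2 := congrArg (fun f : Module.End ℂ A.H1 => f v) h1
        have h3 : reRho C (algebraMap ℚ K a) v = C.ρ (a : K) v := rfl
        have h4 : reRho C (algebraMap ℚ K a) v = (a : ℂ) • v := h2
        rw [← h3, h4]
      obtain ⟨x, hx⟩ := C.centralizer f hf (fun x v => by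
        obtain ⟨a, rfl⟩ := hall x
        rw [hrat, hrat, hf.linear.map_smul])
      obtain ⟨a, rfl⟩ := hall x
      obtain ⟨v, hv⟩ := hne a
      exact hv (by rw [hx, hrat])
    · exact Or.inl ⟨hre, ⟨{
        ρ := C.ρ
        one := C.one
        mul := C.mul
        add := C.add
        degree := h
        endo := C.endo
        rosati := C.rosati
        centralizer := C.centralizer }⟩⟩
  · -- Hermitian type
    obtain ⟨r, hr⟩ := herm_rank A K ρ C
    obtain ⟨e, he, he0⟩ := cm_even K
    rw [he] at hr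
    have hr' : e * r = A.g := by
      have : 2 * (e * r) = 2 * A.g := by rw [← hr]; ring
      omega
    rcases (Nat.dvd_prime hp).mp ⟨r, hr'.symm⟩ with h | h
    · exact Or.inr (Or.inr ⟨h1, ρ, C, by rw [he, h]⟩)
    · exact Or.inr (Or.inl (cmType_of_herm C (by rw [he, h])))
  · exfalso
    obtain ⟨m, hm, -⟩ := quat_rank A K ρ j b C
    obtain ⟨e, he, he0⟩ := cm_even K
    rw [he] at hm
    rw [← hm, mul_assoc] at hodd
    exact (Nat.not_even_iff_odd.mpr hodd) (even_two_mul _)

/-- from families to a single abelian variety -/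
lemma divisorial_of_family (A : AbVar) (k : ℕ)
    (h : ∀ α : Form (fun _ : Unit => A) (fun _ => 1) (2 * k),
      IsGrothendieck (fun _ : Unit => A) (fun _ => 1) k α →
      IsDivisorial (fun _ : Unit => A) (fun _ => 1) k α)
    (α : A.Class (2 * k)) (hα : A.IsGrothendieckClass k α) : A.IsDivisorialClass k α := by
  have hiso := Pool.Agent.Helper83.Ball.isIsogeny_one A
  have hG := Pool.Agent.Helper39.AF.grothendieck_transfer hiso α hα
  have h3 := Pool.Agent.Helper39.AF.divisorial_transfer hiso (ι := fun _ => id)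
    (fun _ => ⟨⟨⟨fun _ _ => rfl, fun _ _ => rfl⟩, fun _ h => h, fun _ h => h, fun _ h => h⟩,
      fun _ _ => rfl⟩) _ (h _ hG)
  have h4 : (α.compLinearMap (Pool.Agent.Helper83.Ball.one A).symm.toLinearMap).compLinearMap
      (Pool.Agent.Helper83.Ball.one A).toLinearMap = α := by
    ext v
    rfl
  rwa [h4] at h3

/-- real multiplication, one factor -/
theorem rm_single (A : AbVar) (K : Type) [Field K] [NumberField K] (h : IsRMType A K) (k : ℕ)
    (α : A.Class (2 * k)) (hα : A.IsGrothendieckClass k α) : A.IsDivisorialClass k α := by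
  refine divisorial_of_family A k (fun β hβ => ?_) α hα
  have hre : ∀ σ : K →+* ℂ, ComplexEmbedding.conjugate σ = σ := fun σ => by
    have := h.1
    exact ComplexEmbedding.isReal_iff.mp (IsTotallyReal.complexEmbedding_isReal σ)
  have hzero : ∀ u : Emb (fun _ : Unit => K) → ℚ, IsOdd (fun _ : Unit => K) u → u = 0 := by
    intro u hu
    funext t
    have h1 := hu t.1 t.2
    rw [hre t.2] at h1
    have h2 : u t = - u t := h1
    show u t = 0
    linarith
  refine (main_U (fun _ : Unit => A) (fun _ => 1) (fun _ : Unit => K)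
    (fun _ l hl hl0 => A.periods_not_proportional l hl hl0)
    (fun _ _ v => v) Finset.univ ∅ ∅ (fun i => Or.inl (Finset.mem_univ i)) (fun _ _ => h)
    (fun i hi => absurd hi (Finset.notMem_empty i)) (fun i hi => absurd hi (Finset.notMem_empty i))
    ?_ ?_ k β).mp hβ
  · intro U hU i _ w hw _
    rw [hzero w hw]
    exact U.zero_mem
  · exact ⟨fun i hi => absurd hi (Finset.notMem_empty i),
      fun _ i hi => absurd hi (Finset.notMem_empty i)⟩

/-- complex multiplication, prime dimension, one factor -/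
theorem cm_single (A : AbVar) (K : Type) [Field K] [NumberField K] (h : IsCMType A K)
    (hs : A.IsSimple) (hp : A.g.Prime) (k : ℕ)
    (α : A.Class (2 * k)) (hα : A.IsGrothendieckClass k α) : A.IsDivisorialClass k α := by
  refine divisorial_of_family A k (fun β hβ => ?_) α hα
  refine (main_prime (fun _ : Unit => A) (fun _ => 1) (fun _ : Unit => K)
    (fun _ l hl hl0 => A.periods_not_proportional l hl hl0) (fun _ htr => ?_) ()
    (fun i hi => absurd (Subsingleton.elim i ()) hi) h hs hp rfl k β).mp hβ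
  exfalso
  obtain ⟨hcm, -⟩ := h
  have σ : K →+* ℂ := Classical.choice (inferInstance : Nonempty (K →+* ℂ))
  have h1 : ComplexEmbedding.IsReal σ := IsTotallyReal.complexEmbedding_isReal σ
  exact IsTotallyComplex.complexEmbedding_not_isReal σ h1

/-- reduction to imaginary quadratic multiplication -/
theorem prime_reduce (A : AbVar) (hs : A.IsSimple) (hp : A.g.Prime) (hp2 : A.g ≠ 2)
    (hE : ∃ f, A.IsEnd f ∧ ∀ q : ℚ, ∃ v, f v ≠ (q : ℂ) • v)
    (hquad : ∀ (K : Type) [Field K] [NumberField K] [IsCMField K] (ρ : K → A.H1 → A.H1),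
      A.IsHermMult K ρ → finrank ℚ K = 2 → ∀ (k : ℕ) (α : A.Class (2 * k)),
      A.IsGrothendieckClass k α → A.IsDivisorialClass k α) (k : ℕ) (α : A.Class (2 * k)) :
    A.IsGrothendieckClass k α ↔ A.IsDivisorialClass k α := by
  refine ⟨fun hα => ?_, fun h => Pool.Agent.Helper39.AF.grothendieck_of_divisorial h⟩
  obtain ⟨K, iF, iN, h | h | ⟨h1, ρ, C, h2⟩⟩ := prime_cases A hs hp hp2 hE
  · exact rm_single A K h k α hα
  · exact cm_single A K h hs hp k α hα
  · exact hquad K ρ C h2 k α hα

end Pool.Agent.Helper7
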