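import Pool.Agent.Helper7.PD.Sig
import Pool.Agent.Helper8.P.AV7

/-!
Simple abelian varieties of odd prime dimension.
-/

namespace Pool.Agent.Helper7

open Module NumberField Pool.Agent.GPC Pool.Agent.Helper84

/-- imaginary quadratic fields: every place is separated -/
theorem quad_sep (A : AbVar) (K : Type) [Field K] [NumberField K] [IsCMField K]
    (ρ : K → A.H1 → A.H1) (C : A.IsHermMult K ρ) (h2 : finrank ℚ K = 2) (σ : K →+* ℂ) (q : ℕ)
    (hq : finrank ℂ (A.eigenFil ρ σ) = q) : A.IsMultSep K A.g q ρ := by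
  obtain ⟨x, c, hc, hx, hcx, hgen⟩ := quad_gen K h2
  exact
    { one := C.one
      mul := C.mul
      add := C.add
      rank := by rw [h2, mul_comm]
      endo := C.endo
      rosati := C.rosati
      centralizer := fun f hf hc => C.centralizer f hf (fun x _ v => hc x v)
      signature := ⟨σ, hq, fun τ t1 t2 => by
        obtain ⟨e1, e2, e3, -, -⟩ := emb_quad h2 hc hx σ τ
        exact absurd (e3.imp e1 e2) (not_or.mpr ⟨t1, t2⟩)⟩ }

theorem quad_final (A : AbVar) (hp : A.g.Prime) (K : Type) [Field K]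
    [NumberField K] [IsCMField K] (ρ : K → A.H1 → A.H1) (C : A.IsHermMult K ρ)
    (h2 : finrank ℚ K = 2) (σ : K →+* ℂ) (h1 : 1 ≤ finrank ℂ (A.eigenFil ρ σ))
    (h3 : 2 * finrank ℂ (A.eigenFil ρ σ) + 3 ≤ A.g) (k : ℕ) (α : A.Class (2 * k))
    (hα : A.IsGrothendieckClass k α) : A.IsDivisorialClass k α := by
  refine (Pool.Agent.Ball.main_prime A K A.g _ ρ (quad_sep A K ρ C h2 σ _ rfl) hp h1 h3 k ?_
    α).mp hα
  have := hp.two_le
  omega

/-- simple abelian varieties of odd prime dimension -/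
theorem prime_dim (A : AbVar) (hs : A.IsSimple) (hp : A.g.Prime) (hp2 : A.g ≠ 2)
    (hE : ∃ f, A.IsEnd f ∧ ∀ q : ℚ, ∃ v, f v ≠ (q : ℂ) • v)
    (hb : A.g = 3 ∨ ¬ A.IsNearBalanced) (k : ℕ) (α : A.Class (2 * k)) :
    A.IsGrothendieckClass k α ↔ A.IsDivisorialClass k α :=
  prime_dim_of A hs hp hp2 hE hb (fun K _ _ _ ρ C h2 σ h1 h3 k α hα =>
    quad_final A hp K ρ C h2 σ h1 h3 k α hα) k α

end Pool.Agent.Helper7
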