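import Pool.Agent.Helper7.PD.Types
import Pool.Agent.Helper7.PD.Cases
import Pool.Agent.Helper7.AF.Mixed
import Pool.Agent.Helper7.AF.Omf
import Pool.Agent.Helper7.W4.Quad
import Pool.Agent.Helper11.AF.Rigid

/-!
The signature of an action of an imaginary quadratic field.
-/

namespace Pool.Agent.Helper7

open Module NumberField Pool.Agent.GPC Pool.Agent.Helper84

set_option linter.unusedSectionVars false

section sig

variable {A : AbVar} {K : Type} [Field K] [NumberField K] {m : ℕ} (F : UF (pData A) K m)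

/-- in rank at least two there is a place which is not pure -/
theorem exists_mixed (hm : 2 ≤ m) (hrig : Rigid A)
    (hcen : ∀ f : Module.End ℂ A.H1, A.IsEnd f →
      (∀ x v, f (F.ρ x v) = F.ρ x (f v)) → ∃ x, ∀ v, f v = F.ρ x v) :
    ∃ σ : K →+* ℂ, ¬ IsDefAt A F.ρ σ := by
  classical
  by_contra hcon
  push Not at hcon
  have hρ : ∀ x, A.IsEnd (F.ρ x) := fun x => isEnd_of_isDRB A _ (F.hρ x)
  let z0 : Fin m := ⟨0, by omega⟩
  let z1 : Fin m := ⟨1, by omega⟩
  have hz : z1 ≠ z0 := fun h => by simp [z0, z1] at h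
  let t : Matrix (Fin m) (Fin m) K := Matrix.single z0 z0 1
  let f : Module.End ℂ A.H1 := F.ofMat t
  have hfp : ∀ (σ : K →+* ℂ) v, f (proj F.ρ σ v) = proj F.ρ σ (f v) := fun σ v =>
    (F.ofMat_comm t).proj σ v
  have hfF : ∀ v, A.IsFil v → A.IsFil (f v) := by
    intro v hv
    have h1 : f v = ∑ σ : K →+* ℂ, proj F.ρ σ (f (proj F.ρ σ v)) := by
      have h2 : v = ∑ σ : K →+* ℂ, proj F.ρ σ v := by
        rw [← LinearMap.sum_apply, sum_proj]; rfl
      conv_lhs => rw [h2, map_sum]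
      refine Finset.sum_congr rfl fun σ _ => ?_
      rw [← hfp, proj_idem]
    rw [h1]
    refine fil_sum A _ _ fun σ => ?_
    rcases hcon σ with h | h
    · exact h _
    · rw [h v (proj_fil A F.ρ hρ σ hv), map_zero, map_zero]
      exact fil_zero A
  have hfB : ∀ v, A.IsBetti v → A.IsBetti (f v) := by
    intro v hv
    rw [← mem_pData_Q] at hv ⊢
    exact F.ofMat_rat t v hv
  have hfE : A.IsEnd f := ⟨f.isLinear, hfB, hrig f f.isLinear hfB hfF, hfF⟩
  obtain ⟨x, hx⟩ := hcen f hfE (F.ofMat_comm t)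
  have σ : K →+* ℂ := Classical.choice (inferInstance : Nonempty (K →+* ℂ))
  have h0 := hx (F.e σ z0)
  have h1 := hx (F.e σ z1)
  rw [F.rho_e] at h0 h1
  have e0 : f (F.e σ z0) = F.e σ z0 := by
    show F.ofMat t (F.e σ z0) = _
    rw [F.ofMat_e, Finset.sum_eq_single z0]
    · simp [t]
    · intro b _ hb
      simp [t, Ne.symm hb]
    · intro h; exact absurd (Finset.mem_univ _) h
  have e1 : f (F.e σ z1) = 0 := by
    show F.ofMat t (F.e σ z1) = _
    rw [F.ofMat_e]
    refine Finset.sum_eq_zero fun b _ => ?_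
    simp [t, Ne.symm hz]
  rw [e0] at h0
  rw [e1] at h1
  have h2 := congrArg (F.co σ z0) h0
  have h3 := congrArg (F.co σ z1) h1
  rw [map_smul, F.co_e, if_pos ⟨rfl, rfl⟩, smul_eq_mul, mul_one] at h2
  rw [map_smul, F.co_e, if_pos ⟨rfl, rfl⟩, smul_eq_mul, mul_one, map_zero] at h3
  rw [← h3] at h2
  exact one_ne_zero h2

/-- the step `F^0` -/
def F0 (A : AbVar) : Submodule ℂ A.H1 where
  carrier := {v | A.IsFil v}
  zero_mem' := fil_zero A
  add_mem' := fil_add A
  smul_mem' c _ h := fil_smul A c h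

lemma mem_F0 (v : A.H1) : v ∈ F0 A ↔ A.IsFil v := Iff.rfl

lemma finrank_F0 : finrank ℂ (F0 A) = A.g := by
  have h1 := LinearMap.finrank_range_add_finrank_ker
    (LinearMap.funLeft ℂ ℂ (Sum.inl : Fin A.g → Fin A.g ⊕ Fin A.g))
  have h2 : LinearMap.range (LinearMap.funLeft ℂ ℂ (Sum.inl : Fin A.g → Fin A.g ⊕ Fin A.g)) = ⊤ :=
    LinearMap.range_eq_top.mpr (LinearMap.funLeft_surjective_of_injective _ _ _ Sum.inl_injective)
  have h3 : LinearMap.ker (LinearMap.funLeft ℂ ℂ (Sum.inl : Fin A.g → Fin A.g ⊕ Fin A.g)) =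
      F0 A := by
    ext v
    rw [LinearMap.mem_ker, mem_F0]
    exact ⟨fun h a => congrFun h a, fun h => funext h⟩
  rw [h2, h3, finrank_top, finrank_pi, finrank_pi, Fintype.card_sum, Fintype.card_fin] at h1
  have h5 : A.g + finrank ℂ (F0 A) = A.g + A.g := h1
  omega

lemma mem_eigenFil (ρ : K → A.H1 → A.H1) (hF : ∀ x v, F.ρ x v = ρ x v) (σ : K →+* ℂ)
    (v : A.H1) : v ∈ A.eigenFil ρ σ ↔ (∀ x, ρ x v = σ x • v) ∧ A.IsFil v := by
  constructor
  · intro h
    unfold AbVar.eigenFil at h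
    induction h using Submodule.span_induction with
    | mem v hv => exact hv
    | zero => exact ⟨fun x => by rw [← hF, map_zero, smul_zero], fil_zero A⟩
    | add u v _ _ hu hv => exact ⟨fun x => by
        rw [← hF, map_add, hF, hF, hu.1, hv.1, smul_add], fil_add A hu.2 hv.2⟩
    | smul c v _ hv => exact ⟨fun x => by
        rw [← hF, map_smul, hF, hv.1, smul_comm], fil_smul A c hv.2⟩
  · intro h
    exact Submodule.subset_span h

lemma isDefAt_iff_gen (ρ : K → A.H1 → A.H1) (hρ : ∀ x v, F.ρ x v = ρ x v) (σ : K →+* ℂ) :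
    IsDefAt A F.ρ σ ↔ A.IsPureAt ρ σ := by
  have hpp : ∀ v, proj F.ρ σ (proj F.ρ σ v) = proj F.ρ σ v := by
    classical
    intro v
    rw [← Module.End.mul_apply, proj_mul_proj, if_pos rfl]
  have hev : ∀ v, (∀ x, ρ x v = σ x • v) ↔ proj F.ρ σ v = v := by
    intro v
    constructor
    · intro h
      exact Pool.Agent.Helper83.Ball.proj_of_eigen F σ v (fun x => by rw [hρ, h])
    · intro h x
      rw [← hρ]
      have h1 := congrArg (fun f : Module.End ℂ A.H1 => f v) (rho_mul_proj F.ρ x σ)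
      have h2 : F.ρ x (proj F.ρ σ v) = σ x • proj F.ρ σ v := h1
      rwa [h] at h2
  constructor
  · rintro (h | h)
    · left
      intro v hv
      rw [← (hev v).mp hv]
      exact h v
    · right
      intro v hv hf
      rw [← (hev v).mp hv] at hf ⊢
      exact h v hf
  · rintro (h | h)
    · left
      intro v
      exact h _ ((hev _).mpr (hpp v))
    · right
      intro v hf
      exact h _ ((hev _).mpr (hpp v)) hf

/-- the multiplicities of the two embeddings add up to the dimension -/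
theorem finrank_add (ρ : K → A.H1 → A.H1) (hF : ∀ x v, F.ρ x v = ρ x v) (σ σ' : K →+* ℂ)
    (hne : σ' ≠ σ) (hall : ∀ τ : K →+* ℂ, τ = σ ∨ τ = σ') :
    finrank ℂ (A.eigenFil ρ σ) + finrank ℂ (A.eigenFil ρ σ') = A.g := by
  classical
  have hρ : ∀ x, A.IsEnd (F.ρ x) := fun x => isEnd_of_isDRB A _ (F.hρ x)
  have hsum : ∀ v : A.H1, v = proj F.ρ σ v + proj F.ρ σ' v := by
    intro v
    have h1 : v = ∑ τ : K →+* ℂ, proj F.ρ τ v := by
      rw [← LinearMap.sum_apply, sum_proj]; rfl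
    have h2 : (Finset.univ : Finset (K →+* ℂ)) = {σ, σ'} := by
      ext τ
      simpa using hall τ
    rw [h2, Finset.sum_pair (Ne.symm hne)] at h1
    exact h1
  have heig : ∀ (τ : K →+* ℂ) v, (∀ x, ρ x v = τ x • v) ↔ proj F.ρ τ v = v := by
    intro τ v
    constructor
    · intro h
      exact Pool.Agent.Helper83.Ball.proj_of_eigen F τ v (fun x => by rw [hF, h])
    · intro h x
      rw [← hF]
      have h1 := congrArg (fun f : Module.End ℂ A.H1 => f v) (rho_mul_proj F.ρ x τ)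
      have h2 : F.ρ x (proj F.ρ τ v) = τ x • proj F.ρ τ v := h1
      rwa [h] at h2
  have hmem : ∀ (τ : K →+* ℂ) v, v ∈ A.eigenFil ρ τ ↔ proj F.ρ τ v = v ∧ A.IsFil v := by
    intro τ v
    rw [mem_eigenFil F ρ hF, heig]
  have h1 := LinearMap.finrank_range_add_finrank_ker ((proj F.ρ σ).domRestrict (F0 A))
  have h2 : LinearMap.range ((proj F.ρ σ).domRestrict (F0 A)) = A.eigenFil ρ σ := by
    ext v
    rw [LinearMap.mem_range, hmem]
    constructor
    · rintro ⟨u, rfl⟩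
      exact ⟨proj_idem A F.ρ σ _, proj_fil A F.ρ hρ σ u.2⟩
    · intro h
      exact ⟨⟨v, h.2⟩, h.1⟩
  have h3 : Submodule.map (F0 A).subtype (LinearMap.ker ((proj F.ρ σ).domRestrict (F0 A))) =
      A.eigenFil ρ σ' := by
    ext v
    rw [Submodule.mem_map, hmem]
    constructor
    · rintro ⟨u, hu, rfl⟩
      have h4 : proj F.ρ σ (u : A.H1) = 0 := hu
      have h5 := hsum u
      rw [h4, zero_add] at h5
      exact ⟨h5.symm, u.2⟩
    · intro h
      refine ⟨⟨v, h.2⟩, ?_, rfl⟩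
      show proj F.ρ σ v = 0
      have h5 := hsum v
      rw [h.1] at h5
      exact right_eq_add.mp h5
  have h4 : finrank ℂ (LinearMap.ker ((proj F.ρ σ).domRestrict (F0 A))) =
      finrank ℂ (A.eigenFil ρ σ') := by
    rw [← h3, LinearEquiv.finrank_eq (Submodule.equivSubtypeMap _ _)]
  rw [h2, h4, finrank_F0] at h1
  exact h1

end sig

section quad

variable (A : AbVar) {K : Type} [Field K] [NumberField K] [IsCMField K]
  (ρ : K → A.H1 → A.H1) (C : A.IsHermMult K ρ) (h2 : finrank ℚ K = 2)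

include C h2

/-- the multiplicities of an imaginary quadratic field which is the algebra of endomorphisms -/
theorem quad_mult (hg : 2 ≤ A.g) (σ : K →+* ℂ) :
    finrank ℂ (A.eigenFil ρ σ) + finrank ℂ (A.eigenFil ρ (ComplexEmbedding.conjugate σ)) = A.g ∧
      finrank ℂ (A.eigenFil ρ σ) ≠ 0 ∧
      finrank ℂ (A.eigenFil ρ (ComplexEmbedding.conjugate σ)) ≠ 0 := by
  obtain ⟨F, hF, -⟩ := nonempty_UFh A K ρ C A.g (by rw [h2])
  obtain ⟨x, q, hq, hx, -, -⟩ := quad_gen K h2
  have hρ : ∀ x, A.IsEnd (F.ρ x) := fun x => isEnd_of_isDRB A _ (F.hρ x)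
  have hcc : ∀ τ : K →+* ℂ, ComplexEmbedding.conjugate τ ≠ τ := fun τ h =>
    IsTotallyComplex.complexEmbedding_not_isReal τ (ComplexEmbedding.isReal_iff.mpr h)
  have hall : ∀ σ τ : K →+* ℂ, τ = σ ∨ τ = ComplexEmbedding.conjugate σ := by
    intro σ τ
    obtain ⟨e1, e2, e3, -, -⟩ := emb_quad h2 hq hx σ τ
    exact e3.imp e1 e2
  have hsum := finrank_add F ρ hF σ (ComplexEmbedding.conjugate σ) (hcc σ) (hall σ)
  -- no place is pure
  obtain ⟨τ, hτ⟩ := exists_mixed F hg
    (fun f hl hb hh => deRham_of_hodge A A f hl hb hh) (fun f hf hc => by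
      obtain ⟨x, hx⟩ := C.centralizer f hf (fun x _ v => by
        have := hc x v
        rw [hF, hF] at this
        exact this)
      exact ⟨x, fun v => by rw [hx, hF]⟩)
  have hnp : ∀ σ : K →+* ℂ, ¬ A.IsPureAt ρ σ := by
    intro σ hσ
    rw [← isDefAt_iff_gen F ρ hF] at hσ
    rcases hall σ τ with h | h
    · rw [h] at hτ; exact hτ hσ
    · rw [h] at hτ
      exact hτ (defAt_conj F.ρ hρ hσ)
  have hfin : ∀ σ : K →+* ℂ, finrank ℂ (A.eigenFil ρ σ) ≠ 0 := by
    intro σ h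
    apply hnp σ
    right
    intro v hv hf
    have h3 : v ∈ A.eigenFil ρ σ := Submodule.subset_span ⟨hv, hf⟩
    rw [Submodule.finrank_eq_zero.mp h, Submodule.mem_bot] at h3
    exact h3
  exact ⟨hsum, hfin σ, hfin _⟩

/-- the algebra of endomorphisms is generated by a square root -/
theorem quad_by : ∃ (d : ℚ) (x : K), A.IsQuadBy d (ρ x) ∧
    ∀ (σ : K →+* ℂ), (σ x) ^ 2 = -(d : ℂ) ∧
      A.eigenFil ρ σ = Submodule.span ℂ {v : A.H1 | ρ x v = σ x • v ∧ A.IsFil v} := by
  obtain ⟨x, q, hq, hx, hcx, hgen⟩ := quad_gen K h2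
  have hrat := heRho_rat C
  have hsq : ∀ v, ρ x (ρ x v) = (q : ℂ) • v := fun v => by
    rw [← C.mul, ← hrat, ← hx, pow_two]
  refine ⟨-q, x, ⟨by linarith, C.endo x, fun v => ?_, fun f hf => ?_⟩, fun σ => ⟨?_, ?_⟩⟩
  · rw [hsq]
    push_cast
    rw [neg_neg]
  · obtain ⟨y, hy⟩ := C.centralizer f hf (fun z hz v => by
      obtain ⟨a, b, rfl⟩ := hgen z
      have h5 : b * x = (0 : K) := by
        have hadd : ∀ z w : K, cmConj K (z + w) = cmConj K z + cmConj K w :=
          fun z w => map_add _ z w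
        have hmul : ∀ z w : K, cmConj K (z * w) = cmConj K z * cmConj K w :=
          fun z w => map_mul _ z w
        have hr : ∀ q : ℚ, cmConj K (q : K) = q := fun q => map_ratCast _ q
        rw [hadd, hmul, hr, hr, hcx] at hz
        linear_combination (-1 / 2 : K) * hz
      rw [h5, add_zero, hrat, hrat, hf.linear.map_smul])
    obtain ⟨a, b, rfl⟩ := hgen y
    exact ⟨a, b, fun v => by rw [hy, C.add, C.mul, hrat, hrat]⟩
  · rw [← map_pow, hx, map_ratCast]
    push_cast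
    rw [neg_neg]
  · unfold AbVar.eigenFil
    congr 1
    ext v
    constructor
    · rintro ⟨h1, h3⟩
      exact ⟨h1 x, h3⟩
    · rintro ⟨h1, h3⟩
      refine ⟨fun y => ?_, h3⟩
      obtain ⟨a, b, rfl⟩ := hgen y
      rw [C.add, C.mul, hrat, hrat, h1, map_add, map_mul, map_ratCast, map_ratCast, smul_smul,
        add_smul]

/-- if the multiplicities differ by more than one, they differ by at least three -/
theorem quad_unbalanced (hp : A.g.Prime) (hp2 : A.g ≠ 2) (hb : ¬ A.IsNearBalanced) :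
    ∃ σ : K →+* ℂ, 1 ≤ finrank ℂ (A.eigenFil ρ σ) ∧ 2 * finrank ℂ (A.eigenFil ρ σ) + 3 ≤ A.g := by
  have hodd : Odd A.g := hp.odd_of_ne_two hp2
  obtain ⟨r, hr⟩ := hodd
  obtain ⟨d, x, hJ, hσ⟩ := quad_by A ρ C h2
  have key : ∀ σ : K →+* ℂ, 2 * finrank ℂ (A.eigenFil ρ σ) + 1 ≠ A.g := by
    intro σ h
    exact hb ⟨d, ρ x, σ x, hJ.pos, hJ.endo, hJ.sq, hJ.all, (hσ σ).1, by
      rw [← (hσ σ).2]; exact h⟩
  have σ : K →+* ℂ := Classical.choice (inferInstance : Nonempty (K →+* ℂ))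
  obtain ⟨h3, h4, h5⟩ := quad_mult A ρ C h2 hp.two_le σ
  have k1 := key σ
  have k2 := key (ComplexEmbedding.conjugate σ)
  by_cases h6 : 2 * finrank ℂ (A.eigenFil ρ σ) < A.g
  · exact ⟨σ, by omega, by omega⟩
  · exact ⟨ComplexEmbedding.conjugate σ, by omega, by omega⟩

/-- signature `(g - 1, 1)`, `g` odd -/
theorem quad_ball (hg : Odd A.g) (h3 : 3 ≤ A.g) (σ : K →+* ℂ)
    (h1 : finrank ℂ (A.eigenFil ρ σ) = 1) (k : ℕ) (α : A.Class (2 * k))
    (hα : A.IsGrothendieckClass k α) : A.IsDivisorialClass k α := by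
  obtain ⟨x, q, hq, hx, hcx, hgen⟩ := quad_gen K h2
  have hC : A.IsBallMult K A.g ρ :=
    { one := C.one
      mul := C.mul
      add := C.add
      rank := by rw [h2, mul_comm]
      endo := C.endo
      rosati := C.rosati
      centralizer := fun f hf hc => C.centralizer f hf (fun x _ v => hc x v)
      signature := ⟨σ, h1, fun τ t1 t2 => by
        obtain ⟨e1, e2, e3, -, -⟩ := emb_quad h2 hq hx σ τ
        exact absurd (e3.imp e1 e2) (not_or.mpr ⟨t1, t2⟩)⟩ }
  have hne : ¬ Even A.g := Nat.not_even_iff_odd.mpr hg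
  refine (Pool.Agent.Helper83.Ball.main_ball A K A.g ρ hC h3 k ?_ α).mp hα
  rw [if_neg hne]
  omega

end quad

/-- The theorem on simple abelian varieties of odd prime dimension, from the theorem on unbalanced
signatures. -/
theorem prime_dim_of (A : AbVar) (hs : A.IsSimple) (hp : A.g.Prime) (hp2 : A.g ≠ 2)
    (hE : ∃ f, A.IsEnd f ∧ ∀ q : ℚ, ∃ v, f v ≠ (q : ℂ) • v)
    (hb : A.g = 3 ∨ ¬ A.IsNearBalanced)
    (hquad : ∀ (K : Type) [Field K] [NumberField K] [IsCMField K] (ρ : K → A.H1 → A.H1),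
      A.IsHermMult K ρ → finrank ℚ K = 2 → ∀ σ : K →+* ℂ, 1 ≤ finrank ℂ (A.eigenFil ρ σ) →
      2 * finrank ℂ (A.eigenFil ρ σ) + 3 ≤ A.g → ∀ (k : ℕ) (α : A.Class (2 * k)),
      A.IsGrothendieckClass k α → A.IsDivisorialClass k α) (k : ℕ) (α : A.Class (2 * k)) :
    A.IsGrothendieckClass k α ↔ A.IsDivisorialClass k α := by
  refine prime_reduce A hs hp hp2 hE (fun K _ _ _ ρ C h2 k α hα => ?_) k α
  rcases hb with hb | hb
  · have σ : K →+* ℂ := Classical.choice (inferInstance : Nonempty (K →+* ℂ))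
    obtain ⟨h3, h4, h5⟩ := quad_mult A ρ C h2 hp.two_le σ
    have hodd : Odd A.g := hp.odd_of_ne_two hp2
    by_cases h6 : finrank ℂ (A.eigenFil ρ σ) = 1
    · exact quad_ball A ρ C h2 hodd (by omega) σ h6 k α hα
    · exact quad_ball A ρ C h2 hodd (by omega) (ComplexEmbedding.conjugate σ) (by omega) k α hα
  · obtain ⟨σ, h3, h4⟩ := quad_unbalanced A ρ C h2 hp hp2 hb
    exact hquad K ρ C h2 σ h3 h4 k α hα

end Pool.Agent.Helper7
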