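import Pool.Agent.Helper7.CMTypes

/-!
Balanced abelian varieties.
-/

namespace Pool.Agent.GPC

/-- `End(A) ⊗ ℚ` is an imaginary quadratic field `ℚ(J)`, `J^2 = -d`, and for one square root `c` of
`-d` the part of the eigenspace of `J` for `c` in the step `F^0` of the Hodge filtration of
`H_1(A)` has dimension `(g - 1) / 2`. (Then the two embeddings of the field have multiplicities
`(g - 1) / 2` and `(g + 1) / 2` in `Lie A`.) -/
def AbVar.IsNearBalanced (A : AbVar) : Prop :=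
  ∃ (d : ℚ) (J : A.H1 → A.H1) (c : ℂ), 0 < d ∧ A.IsEnd J ∧
    (∀ v, J (J v) = (-(d : ℂ)) • v) ∧
    (∀ f, A.IsEnd f → ∃ a b : ℚ, ∀ v, f v = (a : ℂ) • v + (b : ℂ) • J v) ∧
    c ^ 2 = -(d : ℂ) ∧
    2 * Module.finrank ℂ (Submodule.span ℂ {v : A.H1 | J v = c • v ∧ A.IsFil v}) + 1 = A.g

end Pool.Agent.GPC
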